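import Pool.Agent.Y122.TQ.Defs2

set_option autoImplicit false

/-! Project TQ: moments without truncation of exponent between 0 and 2, and lower bounds. -/

namespace Pool.Agent.Y914.TQ

open Finset Filter Topology MeasureTheory
open Pool.Agent.Y122.TQ
open Pool.Agent.H306R2.RG
open Pool.Agent.Y746.OA (tr clip rho)

lemma clip_cases {V x : ℝ} (hV : 1 ≤ V) :
    (x ≤ V⁻¹ ∧ clip V x = V⁻¹) ∨ (V⁻¹ ≤ x ∧ x ≤ V ∧ clip V x = x) ∨ (V ≤ x ∧ clip V x = V) := by
  have hV1 : V⁻¹ ≤ 1 := inv_le_one_of_one_le₀ hV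
  unfold clip
  rcases le_total x V⁻¹ with h | h
  · left
    refine ⟨h, ?_⟩
    rw [min_eq_left (by linarith), max_eq_left h]
  · right
    rcases le_total x V with h2 | h2
    · left
      refine ⟨h, h2, ?_⟩
      rw [min_eq_left h2, max_eq_right h]
    · right
      refine ⟨h2, ?_⟩
      rw [min_eq_right h2, max_eq_right (by linarith)]

lemma rpow_inv' {V β : ℝ} (hV : 1 ≤ V) : (V⁻¹) ^ β = V ^ (-β) := by
  rw [Real.inv_rpow (by linarith), Real.rpow_neg (by linarith)]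

/-- the effect of the truncation, exponents between `0` and `2` -/
lemma clip_diff {V x β : ℝ} (hV : 1 ≤ V) (hx : 0 ≤ x) (h0 : 0 < β) (h2 : β < 2) :
    |x ^ β - clip V x ^ β| ≤ V ^ (-β) + x ^ (2 : ℝ) * V ^ (β - 2) := by
  have hV0 : 0 < V := by linarith
  have hn1 : 0 ≤ V ^ (-β) := Real.rpow_nonneg hV0.le _
  have hn2 : 0 ≤ x ^ (2 : ℝ) * V ^ (β - 2) := mul_nonneg (Real.rpow_nonneg hx _) (Real.rpow_nonneg hV0.le _)
  rcases clip_cases (x := x) hV with ⟨h, e⟩ | ⟨_, _, e⟩ | ⟨h, e⟩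
  · rw [e, rpow_inv' hV]
    have h3 : x ^ β ≤ V ^ (-β) := by
      rw [← rpow_inv' hV]
      exact Real.rpow_le_rpow hx h h0.le
    have h4 : 0 ≤ x ^ β := Real.rpow_nonneg hx _
    rw [abs_le]
    constructor <;> linarith
  · rw [e, sub_self, abs_zero]
    linarith
  · rw [e]
    have h3 : V ^ β ≤ x ^ β := Real.rpow_le_rpow hV0.le h h0.le
    have h4 : 0 ≤ V ^ β := Real.rpow_nonneg hV0.le _
    have h5 : x ^ β ≤ x ^ (2 : ℝ) * V ^ (β - 2) := by
      have hx0 : 0 < x := lt_of_lt_of_le hV0 h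
      have e1 : x ^ β = x ^ (2 : ℝ) * x ^ (β - 2) := by
        rw [← Real.rpow_add hx0]
        congr 1
        ring
      rw [e1]
      refine mul_le_mul_of_nonneg_left ?_ (Real.rpow_nonneg hx _)
      exact Real.rpow_le_rpow_of_nonpos hV0 h (by linarith)
    rw [abs_le]
    constructor <;> linarith

/-- the lower bound -/
lemma clip_low {V x β : ℝ} (hV : 1 ≤ V) (hx : 0 ≤ x) (h0 : 0 < β) :
    clip V x ^ β - V ^ (-β) ≤ x ^ β := by
  have hV0 : 0 < V := by linarith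
  have hn1 : 0 ≤ V ^ (-β) := Real.rpow_nonneg hV0.le _
  rcases clip_cases (x := x) hV with ⟨_, e⟩ | ⟨_, _, e⟩ | ⟨h, e⟩
  · rw [e, rpow_inv' hV, sub_self]
    exact Real.rpow_nonneg hx _
  · rw [e]; linarith
  · rw [e]
    have h3 : V ^ β ≤ x ^ β := Real.rpow_le_rpow hV0.le h h0.le
    linarith

lemma card_Fs (φ : FD) {X : ℝ} (hX : 1 < X) : ((Fs φ X).card : ℝ) ≤ X := by
  classical
  have h1 : (Fs φ X).card ≤ ⌈X / φ.r⌉₊ - 1 := by
    have hsub : Fs φ X ⊆ Icc 1 (⌈X / φ.r⌉₊ - 1) := by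
      unfold Fs
      exact Finset.filter_subset _ _
    refine (Finset.card_le_card hsub).trans ?_
    rw [Nat.card_Icc]
    omega
  have h2 : ((⌈X / φ.r⌉₊ - 1 : ℕ) : ℝ) ≤ X := by
    rcases Nat.eq_zero_or_pos φ.r with h | h
    · rw [h, Nat.cast_zero, div_zero, Nat.ceil_zero]
      simp only [zero_tsub, Nat.cast_zero]
      linarith
    · have hr : (1:ℝ) ≤ φ.r := by exact_mod_cast h
      have h3 : 0 < X / φ.r := by positivity
      have h4 := Nat.ceil_lt_add_one h3.le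
      have h5 : 0 < ⌈X / φ.r⌉₊ := Nat.ceil_pos.mpr h3
      have h6 : X / φ.r ≤ X := div_le_self (by linarith) hr
      rw [Nat.cast_sub h5, Nat.cast_one]
      linarith
  exact (by exact_mod_cast h1 : ((Fs φ X).card : ℝ) ≤ ((⌈X / φ.r⌉₊ - 1 : ℕ) : ℝ)).trans h2

/-- the number of characters -/
lemma card_SX (h3 : S_TR) {ε : ℤ} (hε : ε = 1 ∨ ε = -1) {X : ℝ} (hX : 1 < X) (hf : (SX ε X).Finite) :
    (hf.toFinset.card : ℝ) ≤ 4 * X := by
  obtain ⟨-, h⟩ := h3 ε hε X hX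
  have h1 := h (1 / 16) (by norm_num) (by norm_num) (fun _ => 1)
  rw [finsum_mem_eq_finite_toFinset_sum _ hf] at h1
  simp only [Finset.sum_const, nsmul_eq_mul, mul_one] at h1
  rw [h1]
  have a1 := card_Fs (F8 ε) hX
  have a2 := card_Fs (F4 ε) hX
  have a3 := card_Fs (F1 ε 1) hX
  have a4 := card_Fs (F1 ε 5) hX
  linarith

/-- powers of the truncation level -/
lemma level {L : ℝ} (hL : 1 ≤ L) (A' : ℕ) {γ : ℝ} {n : ℕ} (h : (n : ℝ) ≤ A' * γ) :
    (L ^ A') ^ (-γ) ≤ 1 / L ^ n := by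
  have hL0 : 0 < L := by linarith
  rw [← Real.rpow_natCast L A', ← Real.rpow_mul hL0.le, one_div, ← Real.rpow_natCast L n,
    ← Real.rpow_neg hL0.le]
  refine Real.rpow_le_rpow_of_exponent_le hL ?_
  linarith

/-- the conditions on the truncation level -/
lemma level_le {X c δ C : ℝ} (hX : 1 < X) (hL : 1 ≤ Real.log X) (hc : 0 < c) (A' : ℕ)
    (hC : (A' : ℝ) / c ≤ C) (hδ : C * Real.log (Real.log X) / Real.log X ≤ δ) :
    Real.log X ^ A' ≤ X ^ (c * δ) := by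
  have hL0 : 0 < Real.log X := by linarith
  have hX0 : 0 < X := by linarith
  rw [← Real.log_le_log_iff (pow_pos hL0 _) (Real.rpow_pos_of_pos hX0 _), Real.log_pow,
    Real.log_rpow hX0]
  rw [div_le_iff₀ hL0] at hδ
  have hll : 0 ≤ Real.log (Real.log X) := Real.log_nonneg hL
  have h1 : (A' : ℝ) / c * Real.log (Real.log X) ≤ δ * Real.log X :=
    (mul_le_mul_of_nonneg_right hC hll).trans hδ
  have h2 := mul_le_mul_of_nonneg_left h1 hc.le
  have h3 : c * ((A' : ℝ) / c * Real.log (Real.log X)) = A' * Real.log (Real.log X) := by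
    field_simp
  rw [h3] at h2
  linarith

lemma smaller {C C' X δ : ℝ} (hL : 1 ≤ Real.log X) (h : C ≤ C')
    (hδ : C' * Real.log (Real.log X) / Real.log X ≤ δ) :
    C * Real.log (Real.log X) / Real.log X ≤ δ := by
  refine le_trans ?_ hδ
  have hL0 : 0 < Real.log X := by linarith
  have hll : 0 ≤ Real.log (Real.log X) := Real.log_nonneg hL
  gcongr

theorem FIN2 (h1 : S_FIN) (h2 : S_SM) (h3 : S_TR) : S_FIN2 := by
  intro β hβ0 hβ2 B
  obtain ⟨c, hc, hB⟩ := h1 2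
  obtain ⟨A, C0, X0, hC0, hfin⟩ := hB (B + 1)
  obtain ⟨C1, X1, E, hC1, hsm⟩ := h2
  obtain ⟨A1, hA1⟩ := exists_nat_ge (((B + 2 : ℕ) : ℝ) / β)
  obtain ⟨A2, hA2⟩ := exists_nat_ge (((E + B + 2 : ℕ) : ℝ) / (2 - β))
  rw [div_le_iff₀ hβ0] at hA1
  rw [div_le_iff₀ (by linarith)] at hA2
  set A' : ℕ := A + A1 + A2 with hA'
  have hA1' : ((B + 2 : ℕ) : ℝ) ≤ A' * β := by
    refine hA1.trans (mul_le_mul_of_nonneg_right ?_ hβ0.le)
    rw [hA']; push_cast; linarith [(Nat.cast_nonneg A : (0:ℝ) ≤ A), (Nat.cast_nonneg A2 : (0:ℝ) ≤ A2)]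
  have hA2' : ((E + B + 2 : ℕ) : ℝ) ≤ A' * (2 - β) := by
    refine hA2.trans (mul_le_mul_of_nonneg_right ?_ (by linarith))
    rw [hA']; push_cast; linarith [(Nat.cast_nonneg A : (0:ℝ) ≤ A), (Nat.cast_nonneg A1 : (0:ℝ) ≤ A1)]
  set C : ℝ := C0 + 16 + A' / c with hC
  have hAc : 0 ≤ (A' : ℝ) / c := by positivity
  have hCpos : 0 < C := by rw [hC]; linarith
  refine ⟨C, max (max X0 X1) (Real.exp (C1 + 6)), hCpos, fun X hX ε hε δ hδ hδ1 => ?_⟩
  have hX0 : X0 ≤ X := (le_max_left _ _).trans ((le_max_left _ _).trans hX)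
  have hX1 : X1 ≤ X := (le_max_right _ _).trans ((le_max_left _ _).trans hX)
  have hXe : Real.exp (C1 + 6) ≤ X := (le_max_right _ _).trans hX
  have hXpos : 0 < X := (Real.exp_pos _).trans_le hXe
  have hLe : C1 + 6 ≤ Real.log X := (Real.le_log_iff_exp_le hXpos).mpr hXe
  have hX1' : 1 < X := by
    have : 1 < Real.exp (C1 + 6) := Real.one_lt_exp_iff.mpr (by linarith)
    linarith
  set L := Real.log X with hL
  have hL1 : 1 ≤ L := by linarith
  have hL0 : 0 < L := by linarith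
  have hll : 1 ≤ Real.log L := by
    rw [Real.le_log_iff_exp_le hL0]
    have := Real.exp_one_lt_d9
    linarith
  obtain ⟨hf, hmain⟩ := hfin X hX0 ε hε
  set V : ℝ := L ^ A' with hV
  have hV1 : 1 ≤ V := one_le_pow₀ hL1
  have hδ0 : C0 * Real.log (Real.log X) / Real.log X ≤ δ := smaller hL1 (by rw [hC]; linarith) hδ
  have hδ16 : 16 / L ≤ δ := by
    have h16 : (16:ℝ) * Real.log (Real.log X) / Real.log X ≤ δ :=
      smaller hL1 (by rw [hC]; linarith) hδ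
    refine le_trans ?_ h16
    rw [← hL]
    gcongr
    linarith
  have hA : Real.log X ^ A ≤ V := by
    rw [hV, ← hL]
    exact pow_le_pow_right₀ hL1 (by rw [hA']; omega)
  have hVle : V ≤ X ^ (c * δ) := level_le hX1' hL1 hc A' (by rw [hC]; linarith) hδ
  have key := hmain δ hδ0 hδ1 V hA hVle β (by rw [abs_of_pos hβ0]; norm_num; linarith)
  have hsm' := hsm X hX1 ε hε δ hδ16 hδ1
  have hcard := card_SX h3 hε hX1' hf
  rw [finsum_mem_eq_finite_toFinset_sum _ hf] at key hsm' ⊢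
  set S := hf.toFinset with hS
  have hdiff : |∑ p ∈ S, ‖Lv δ p‖ ^ β - ∑ p ∈ S, clip V ‖Lv δ p‖ ^ β| ≤
      4 * X * V ^ (-β) + C1 * X * L ^ E * V ^ (β - 2) := by
    rw [← Finset.sum_sub_distrib]
    refine (Finset.abs_sum_le_sum_abs _ _).trans ?_
    refine (Finset.sum_le_sum fun p _ => clip_diff hV1 (norm_nonneg (Lv δ p)) hβ0 hβ2).trans ?_
    rw [Finset.sum_add_distrib, Finset.sum_const, nsmul_eq_mul, ← Finset.sum_mul]
    have hV0 : 0 < V := by linarith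
    refine add_le_add (mul_le_mul_of_nonneg_right hcard (Real.rpow_nonneg hV0.le _))
      (mul_le_mul_of_nonneg_right hsm' (Real.rpow_nonneg hV0.le _))
  have hl1 : V ^ (-β) ≤ 1 / L ^ (B + 2) := level hL1 A' hA1'
  have hl2 : V ^ (β - 2) ≤ 1 / L ^ (E + B + 2) := by
    have := level hL1 A' hA2'
    rwa [neg_sub] at this
  have hb1 : 4 * X * V ^ (-β) ≤ 4 * X * (1 / L ^ (B + 2)) := by gcongr
  have hb2 : C1 * X * L ^ E * V ^ (β - 2) ≤ C1 * X * (1 / L ^ (B + 2)) := by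
    calc C1 * X * L ^ E * V ^ (β - 2) ≤ C1 * X * L ^ E * (1 / L ^ (E + B + 2)) := by gcongr
      _ = C1 * X * (1 / L ^ (B + 2)) := by
        rw [show E + B + 2 = E + (B + 2) by ring, pow_add L E]
        field_simp
  have htot : X / L ^ (B + 1) + (4 * X * (1 / L ^ (B + 2)) + C1 * X * (1 / L ^ (B + 2))) ≤ X / L ^ B := by
    have e1 : X / L ^ (B + 1) + (4 * X * (1 / L ^ (B + 2)) + C1 * X * (1 / L ^ (B + 2))) =
        X / L ^ B * ((L + (4 + C1)) / L ^ 2) := by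
      rw [pow_succ L (B + 1), pow_succ L B]
      field_simp
    rw [e1]
    refine mul_le_of_le_one_right (by positivity) ?_
    rw [div_le_one (by positivity)]
    nlinarith
  have habs := abs_sub_le (∑ p ∈ S, ‖Lv δ p‖ ^ β) (∑ p ∈ S, clip V ‖Lv δ p‖ ^ β)
    (3 / Real.pi ^ 2 * X * (lfac β δ 2 * MT β δ))
  linarith

theorem FIN3 (h1 : S_FIN) (h3 : S_TR) : S_FIN3 := by
  intro β hβ0 B
  obtain ⟨m, hm⟩ := exists_nat_ge β
  obtain ⟨c, hc, hB⟩ := h1 m
  obtain ⟨A, C0, X0, hC0, hfin⟩ := hB (B + 1)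
  obtain ⟨A1, hA1⟩ := exists_nat_ge (((B + 2 : ℕ) : ℝ) / β)
  rw [div_le_iff₀ hβ0] at hA1
  set A' : ℕ := A + A1 with hA'
  have hA1' : ((B + 2 : ℕ) : ℝ) ≤ A' * β := by
    refine hA1.trans (mul_le_mul_of_nonneg_right ?_ hβ0.le)
    rw [hA']; push_cast; linarith [(Nat.cast_nonneg A : (0:ℝ) ≤ A)]
  set C : ℝ := C0 + A' / c with hC
  have hAc : 0 ≤ (A' : ℝ) / c := by positivity
  have hCpos : 0 < C := by rw [hC]; linarith
  refine ⟨C, max X0 (Real.exp 6), hCpos, fun X hX ε hε δ hδ hδ1 => ?_⟩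
  have hX0 : X0 ≤ X := (le_max_left _ _).trans hX
  have hXe : Real.exp 6 ≤ X := (le_max_right _ _).trans hX
  have hXpos : 0 < X := (Real.exp_pos _).trans_le hXe
  have hLe : 6 ≤ Real.log X := (Real.le_log_iff_exp_le hXpos).mpr hXe
  have hX1' : 1 < X := by
    have : 1 < Real.exp 6 := Real.one_lt_exp_iff.mpr (by norm_num)
    linarith
  set L := Real.log X with hL
  have hL1 : 1 ≤ L := by linarith
  have hL0 : 0 < L := by linarith
  obtain ⟨hf, hmain⟩ := hfin X hX0 ε hε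
  set V : ℝ := L ^ A' with hV
  have hV1 : 1 ≤ V := one_le_pow₀ hL1
  have hδ0 : C0 * Real.log (Real.log X) / Real.log X ≤ δ := smaller hL1 (by rw [hC]; linarith) hδ
  have hA : Real.log X ^ A ≤ V := by
    rw [hV, ← hL]
    exact pow_le_pow_right₀ hL1 (by rw [hA']; omega)
  have hVle : V ≤ X ^ (c * δ) := level_le hX1' hL1 hc A' (by rw [hC]; linarith) hδ
  have key := hmain δ hδ0 hδ1 V hA hVle β (by rw [abs_of_pos hβ0]; exact hm)
  have hcard := card_SX h3 hε hX1' hf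
  rw [finsum_mem_eq_finite_toFinset_sum _ hf] at key ⊢
  set S := hf.toFinset with hS
  have hdiff : ∑ p ∈ S, clip V ‖Lv δ p‖ ^ β - 4 * X * V ^ (-β) ≤ ∑ p ∈ S, ‖Lv δ p‖ ^ β := by
    have h4 := Finset.sum_le_sum fun p (_ : p ∈ S) => clip_low hV1 (norm_nonneg (Lv δ p)) hβ0
    rw [Finset.sum_sub_distrib, Finset.sum_const, nsmul_eq_mul] at h4
    have hV0 : 0 < V := by linarith
    have h5 := mul_le_mul_of_nonneg_right hcard (Real.rpow_nonneg hV0.le (-β))
    linarith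
  have hl1 : V ^ (-β) ≤ 1 / L ^ (B + 2) := level hL1 A' hA1'
  have hb1 : 4 * X * V ^ (-β) ≤ 4 * X * (1 / L ^ (B + 2)) := by gcongr
  have htot : X / L ^ (B + 1) + 4 * X * (1 / L ^ (B + 2)) ≤ X / L ^ B := by
    have e1 : X / L ^ (B + 1) + 4 * X * (1 / L ^ (B + 2)) = X / L ^ B * ((L + 4) / L ^ 2) := by
      rw [pow_succ L (B + 1), pow_succ L B]
      field_simp
    rw [e1]
    refine mul_le_of_le_one_right (by positivity) ?_
    rw [div_le_one (by positivity)]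
    nlinarith
  have habs := (abs_le.mp key).1
  linarith

end Pool.Agent.Y914.TQ
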